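import Pool.Agent.H56.Lip1

namespace Pool.Agent.Results.MP_2744a5_an.Bijective
open Filter Topology Set Pool.Agent.H56.Lip
open scoped Classical ZeroAtInfty

section
variable {V : Type} (τ : RTree V)

theorem main (φ : V → V) (l : ℂ) (hi : Function.Injective φ)
    (hφ : ∀ v, v ≠ τ.o → ∃ z, Adj τ (φ v) z ∧ Adj τ (φ (τ.par v)) z)
    (hA : ∀ w, ∀ ε : ℝ, 0 < ε → ∀ᶠ n in atTop, 
      ∃ e, InL0 τ e ∧ Bd τ e ε ∧ Bd τ (l ^ n • (e ∘ φ^[n]) - dl w) ε)
    (hB : ∀ w, ∀ ε : ℝ, 0 < ε → ∀ᶠ n in atTop, Bd τ (l ^ n • (dl w ∘ φ^[n])) ε) :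
    BoundedComp τ φ ∧ HypercyclicComp τ φ l := by
  let _ : TopologicalSpace V := ⊥
  have : DiscreteTopology V := ⟨rfl⟩
  have hc : Countable V := by
    rw [← countable_univ_iff]
    refine (countable_iUnion fun n : ℕ => (ball_fin τ n).countable).mono fun v _ => ?_
    exact mem_iUnion.2 ⟨τ.dep v, show τ.dep v ≤ τ.dep v from le_rfl⟩
  have mk : ∀ f, InL0 τ f → ∃ u : C₀(V, ℂ), ⇑u = D τ f := fun f hf =>
    ⟨⟨⟨D τ f, continuous_of_discreteTopology⟩, by
      rw [cocompact_eq_cofinite]; exact (inL0_iff τ f).1 hf⟩, rfl⟩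
  have nl : ∀ (u : C₀(V, ℂ)) (c : ℝ), ‖u‖ ≤ c ↔ ∀ v, ‖u v‖ ≤ c := fun u c => by
    rw [← ZeroAtInftyContinuousMap.norm_toBCF_eq_norm]
    have : Nonempty V := ⟨τ.o⟩
    exact BoundedContinuousFunction.norm_le_of_nonempty
  have sl : ∀ u : C₀(V, ℂ), InL0 τ (S τ u) := fun u => by
    rw [inL0_iff, DS, ← cocompact_eq_cofinite]; exact u.zero_at_infty'
  have bd : ∀ f, InL0 τ f → Bd τ f (nrm τ f) := fun f hf => by
    obtain ⟨u, hu⟩ := mk f hf
    exact bd_nrm τ f ‖u‖ fun v => hu ▸ (nl u _).1 le_rfl v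
  refine ⟨⟨τ.dep (φ τ.o) + 2, fun f hf => ⟨comp_L0 τ φ hi hφ f hf,
    nrm_le τ _ _ (comp_bd τ φ hφ f _ (bd f hf))⟩⟩, ?_⟩
  choose T0 hT0 using fun u : C₀(V, ℂ) => mk _ (comp_L0 τ φ hi hφ _ (sl u))
  have Sa : ∀ u w : V → ℂ, S τ (u + w) = S τ u + S τ w := fun u w =>
    D_inj τ _ _ (by rw [D_add, DS, DS, DS])
  have Ss : ∀ (c : ℂ) (u : V → ℂ), S τ (c • u) = c • S τ u := fun c u =>
    D_inj τ _ _ (by rw [D_smul, DS, DS])
  let T1 : C₀(V, ℂ) →ₗ[ℂ] C₀(V, ℂ) :=
    { toFun := T0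
      map_add' := fun u w => by
        apply DFunLike.coe_injective
        rw [ZeroAtInftyContinuousMap.coe_add, hT0, hT0, hT0, ZeroAtInftyContinuousMap.coe_add, Sa,
          ← D_add]
        rfl
      map_smul' := fun c u => by
        apply DFunLike.coe_injective
        rw [ZeroAtInftyContinuousMap.coe_smul, hT0, hT0, ZeroAtInftyContinuousMap.coe_smul, Ss,
          ← D_smul]
        rfl }
  let T : C₀(V, ℂ) →L[ℂ] C₀(V, ℂ) := T1.mkContinuous (τ.dep (φ τ.o) + 2) fun u => by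
    rw [nl]
    intro v
    change ‖T0 u v‖ ≤ _
    rw [hT0]
    exact comp_bd τ φ hφ _ _ (fun v => by rw [DS]; exact (nl u _).1 le_rfl v) v
  have hT : ∀ (n : ℕ) (u : C₀(V, ℂ)), ⇑((T ^ n) u) = D τ (S τ u ∘ φ^[n]) := by
    intro n
    induction n with
    | zero => intro u; simp [DS]
    | succ n ih =>
      intro u
      rw [pow_succ', mul_apply_eq_comp]
      change ⇑(T0 _) = _
      rw [hT0, ih, SD, Function.iterate_succ]
      rfl
  have hT' : ∀ (n : ℕ) (u : C₀(V, ℂ)), ⇑(((l • T) ^ n) u) = D τ (l ^ n • (S τ u ∘ φ^[n])) := by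
    intro n u
    have : ∀ u : C₀(V, ℂ), ((l • T) ^ n) u = l ^ n • (T ^ n) u := by
      induction n with
      | zero => intro u; simp
      | succ n ih =>
        intro u
        rw [pow_succ, pow_succ T, mul_apply_eq_comp, mul_apply_eq_comp, ih,
          ContinuousLinearMap.smul_apply, map_smul, smul_smul, pow_succ]
    rw [this, ZeroAtInftyContinuousMap.coe_smul, hT, D_smul]
  have hdl : ∀ w, InL0 τ (dl w) := fun w =>
    inL0_fin τ _ ((finite_singleton w).subset fun v hv => by by_contra h; exact hv (if_neg h))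
  choose x hx using fun w => mk _ (hdl w)
  have hsp : ∀ (F : Finset V) (g : V → ℂ), (∀ v, v ∉ F → g v = 0) →
      ∃ u ∈ Submodule.span ℂ (range x), ⇑u = D τ g := by
    intro F
    induction F using Finset.induction_on with
    | empty =>
      intro g hg
      refine ⟨0, Submodule.zero_mem _, ?_⟩
      funext v; simp [D, hg]
    | insert a F _ ih =>
      intro g hg
      obtain ⟨u, u1, u2⟩ := ih (g - g a • dl a) fun v hv => by
        by_cases h : v = a
        · simp [h, dl]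
        · simp [h, dl, hg v (by simp [h, hv])]
      refine ⟨u + g a • x a, Submodule.add_mem _ u1
        (Submodule.smul_mem _ _ (Submodule.subset_span ⟨a, rfl⟩)), ?_⟩
      rw [ZeroAtInftyContinuousMap.coe_add, ZeroAtInftyContinuousMap.coe_smul, u2, hx, ← D_smul,
        ← D_add, sub_add_cancel]
  refine (hyper (l • T) (range x) (countable_range x) ?_ ?_ ?_).elim fun f hf => ?_
  pick_goal 4
  · refine ⟨S τ f, sl f, fun g hg ε hε => ?_⟩
    obtain ⟨u, hu⟩ := mk g hg
    obtain ⟨n, hn⟩ := hf u ε hε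
    refine ⟨n, (nrm_le τ _ _ fun v => ?_).trans_lt hn⟩
    have := (nl _ _).1 (le_refl ‖((l • T) ^ n) f - u‖) v
    rwa [ZeroAtInftyContinuousMap.coe_sub, hT', hu, ← D_sub] at this
  · rw [Metric.dense_iff]
    intro u r hr
    obtain ⟨g, g1, g2⟩ := trunc τ _ (sl u) (r / 7) (by positivity)
    obtain ⟨y, y1, y2⟩ := hsp g1.toFinset g fun v hv => by simpa using hv
    refine ⟨y, ?_, y1⟩
    rw [mem_ball_iff_norm, norm_sub_rev]
    refine lt_of_le_of_lt ((nl _ (6 * (r / 7))).2 fun v => ?_) (by linarith)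
    have := g2 v
    rwa [D_sub, DS, ← y2, ← ZeroAtInftyContinuousMap.coe_sub] at this
  · rintro _ ⟨w, rfl⟩ ε hε
    filter_upwards [hA w ε hε] with n ⟨e, e1, e2, e3⟩
    obtain ⟨u, hu⟩ := mk e e1
    refine ⟨u, (nl _ _).2 (hu ▸ e2), (nl _ _).2 fun v => ?_⟩
    rw [ZeroAtInftyContinuousMap.coe_sub, hT', hu, SD, hx, ← D_sub]
    exact e3 v
  · rintro _ ⟨w, rfl⟩ ε hε
    filter_upwards [hB w ε hε] with n e3
    refine ⟨0, by simpa using hε.le, (nl _ _).2 fun v => ?_⟩
    rw [add_zero, hT', hx, SD]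
    exact e3 v

end

/-- the comb: rays `{k} × ℕ` attached along the spine `ℕ × {0}` -/
def par : ℕ × ℕ → ℕ × ℕ
  | (k, j + 1) => (k, j)
  | (k + 1, 0) => (k, 0)
  | (0, 0) => (0, 0)

def tr : RTree (ℕ × ℕ) where
  o := (0, 0)
  par := par
  dep v := v.1 + v.2
  dep_o := rfl
  par_o := rfl
  dep_par := by
    rintro ⟨_ | k, _ | j⟩ hv
    · exact (hv rfl).elim
    all_goals simp [par]; try omega
  fin := by
    rintro ⟨a, b⟩
    refine (Set.toFinite {(a, b + 1), (a + 1, 0), (0, 0)}).subset ?_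
    rintro ⟨_ | k, _ | j⟩ h <;> simp_all [par]
  child := fun ⟨a, b⟩ => ⟨(a, b + 1), by simp, rfl⟩

def ph : ℕ × ℕ → ℕ × ℕ
  | (0, j) => (0, 2 * j + 1)
  | (1, j) => (0, 2 * j)
  | (k + 2, j) => (k + 1, j)

lemma ph_bij : Function.Bijective ph := by
  constructor
  · rintro ⟨_ | _ | k, j⟩ ⟨_ | _ | k', j'⟩ h <;> simp_all [ph] <;> omega
  · rintro ⟨_ | k, j⟩
    · rcases Nat.even_or_odd' j with ⟨i, rfl | rfl⟩
      · exact ⟨(1, i), rfl⟩
      · exact ⟨(0, i), rfl⟩
    · exact ⟨(k + 2, j), rfl⟩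

lemma ph_adj : ∀ v, v ≠ tr.o → ∃ z, Adj tr (ph v) z ∧ Adj tr (ph (tr.par v)) z := by
  rintro ⟨_ | _ | _ | k, _ | j⟩ hv
  · exact (hv rfl).elim
  · exact ⟨(0, 2 * j + 2), Or.inr (Or.inl ⟨by simp [tr, ph], rfl⟩),
      Or.inr (Or.inr ⟨by simp [tr], rfl⟩)⟩
  · exact ⟨(0, 0), Or.inl rfl, Or.inr (Or.inl ⟨by simp [tr, ph, par], rfl⟩)⟩
  · exact ⟨(0, 2 * j + 1), Or.inr (Or.inl ⟨by simp [tr, ph], rfl⟩),
      Or.inr (Or.inr ⟨by simp [tr], rfl⟩)⟩
  · exact ⟨(0, 0), Or.inr (Or.inl ⟨by simp [tr, ph], rfl⟩), Or.inl rfl⟩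
  · exact ⟨(1, j), Or.inr (Or.inl ⟨by simp [tr, ph], rfl⟩), Or.inl rfl⟩
  · exact ⟨(k + 1, 0), Or.inr (Or.inl ⟨by simp [tr, ph], rfl⟩), Or.inl rfl⟩
  · exact ⟨(k + 2, j), Or.inr (Or.inl ⟨by simp [tr, ph], rfl⟩), Or.inl rfl⟩

/-- position plus one after `n` steps -/
def P (n k j : ℕ) : ℕ := if k = 0 then 2 ^ n * (j + 1) else 2 ^ (n - k) * (2 * j + 1)

lemma P_pos (n k j : ℕ) : 0 < P n k j := by unfold P; split_ifs <;> positivity

lemma iter (n k j : ℕ) : ph^[n] (k, j) = if k ≤ n then (0, P n k j - 1) else (k - n, j) := by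
  induction n with
  | zero => rcases k with _ | k <;> simp [P]
  | succ n ih =>
    rw [Function.iterate_succ_apply', ih]
    by_cases h : k ≤ n
    · rw [if_pos h, if_pos (by omega)]
      have h1 : P (n + 1) k j = 2 * P n k j := by
        unfold P
        split_ifs
        · ring
        · rw [show n + 1 - k = n - k + 1 by omega]; ring
      have := P_pos n k j
      simp only [ph, h1, Prod.mk.injEq, true_and]
      omega
    · rw [if_neg h]
      by_cases h2 : k = n + 1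
      · subst h2
        simp [ph, P]
      · rw [if_neg (by omega), show k - n = (k - (n + 1) - 1) + 2 by omega]
        simp only [ph, Prod.mk.injEq, and_true]
        omega

lemma P_dvd {n k k0 : ℕ} (j : ℕ) (h : k ≤ k0) : 2 ^ (n - k0) ∣ P n k j := by
  unfold P
  split_ifs
  · exact Dvd.dvd.mul_right (pow_dvd_pow _ (by omega)) _
  · exact Dvd.dvd.mul_right (pow_dvd_pow _ (by omega)) _

noncomputable def eta (R K d : ℝ) : ℝ := max 0 (1 - Real.log (1 + d / R) / K)

lemma eta_diff {R K a b c : ℝ} (hK : 0 < K)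
    (h : |Real.log (1 + a / R) - Real.log (1 + b / R)| ≤ c) : |eta R K a - eta R K b| ≤ c / K := by
  unfold eta
  rw [max_comm 0, max_comm 0]
  refine (abs_max_sub_max_le_abs _ _ _).trans ?_
  rw [sub_sub_sub_cancel_left, ← sub_div, abs_div, abs_of_pos hK, abs_sub_comm]
  gcongr

lemma log_diff {x y c : ℝ} (hx : 0 < x) (hy : 0 < y) (h1 : x ≤ (1 + c) * y) (h2 : y ≤ (1 + c) * x) :
    |Real.log x - Real.log y| ≤ c := by
  have key : ∀ x y : ℝ, 0 < x → 0 < y → x ≤ (1 + c) * y → Real.log x - Real.log y ≤ c := by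
    intro x y hx hy h
    rw [← Real.log_div hx.ne' hy.ne']
    refine (Real.log_le_sub_one_of_pos (by positivity)).trans ?_
    rw [sub_le_iff_le_add, div_le_iff₀ hy]; linarith
  rw [abs_le]
  exact ⟨by linarith [key y x hy hx h2], key x y hx hy h1⟩

lemma eta_zero {R K d : ℝ} (hR : 0 < R) (hK : 0 < K) (h : R * Real.exp K ≤ d) : eta R K d = 0 := by
  refine max_eq_left ?_
  rw [sub_nonpos, le_div_iff₀ hK, one_mul, Real.le_log_iff_exp_le (by
    have : 0 ≤ d := le_trans (by positivity) h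
    positivity)]
  have : Real.exp K ≤ d / R := by rw [le_div_iff₀ hR]; linarith
  linarith

noncomputable def hh (R K : ℝ) (p : ℕ) : ℕ × ℕ → ℂ
  | (0, x) => (eta R K |((x + 1 : ℕ) : ℝ) - p| : ℝ)
  | (_ + 1, _) => 0

lemma hA {l : ℂ} (h1 : 1 / 2 < ‖l‖) (w : ℕ × ℕ) (ε : ℝ) (hε : 0 < ε) : ∀ᶠ n in atTop,
    ∃ e, InL0 tr e ∧ Bd tr e ε ∧ Bd tr (l ^ n • (e ∘ ph^[n]) - dl w) ε := by
  obtain ⟨k0, j0⟩ := w
  have hl : 0 < ‖l‖ := by linarith
  have hl0 : l ≠ 0 := norm_pos_iff.1 hl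
  set K : ℝ := 2 / ε with hKd
  have hK : 0 < K := by positivity
  have ht := (tendsto_pow_atTop_atTop_of_one_lt (show 1 < 2 * ‖l‖ by linarith)).eventually_ge_atTop
    (Real.exp K * 2 ^ (k0 + 1))
  filter_upwards [ht, eventually_ge_atTop (k0 + 1)] with n hn hnk
  set R : ℝ := (‖l‖ ^ n)⁻¹ with hRd
  have hR : 0 < R := by positivity
  set p := P n k0 j0 with hp
  obtain ⟨m, rfl⟩ : ∃ m, n = m + (k0 + 1) := ⟨n - (k0 + 1), by omega⟩
  set n := m + (k0 + 1) with hn'
  have hsup : R * Real.exp K ≤ 2 ^ m := by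
    rw [hRd, inv_mul_le_iff₀ (by positivity)]
    rw [mul_pow, hn', pow_add 2 m] at hn
    have h3 : (0 : ℝ) < 2 ^ (k0 + 1) := by positivity
    have : Real.exp K * 2 ^ (k0 + 1) ≤ (‖l‖ ^ (m + (k0 + 1)) * 2 ^ m) * 2 ^ (k0 + 1) := by
      linarith
    exact le_of_mul_le_mul_right this h3
  have hnk0 : n - k0 = m + 1 := by omega
  obtain ⟨t, ht⟩ : 2 ^ (m + 1) ∣ p := hnk0 ▸ P_dvd (n := n) j0 le_rfl
  have ht1 : 1 ≤ t := Nat.pos_of_ne_zero fun h => by
    have := P_pos n k0 j0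
    rw [← hp, ht, h] at this
    simp at this
  have hpm : 2 ^ (m + 1) ≤ p := by rw [ht]; exact Nat.le_mul_of_pos_right _ ht1
  have hz : ∀ x : ℕ, x + 2 ^ m ≤ p ∨ p + 2 ^ m ≤ x → eta R K |(x : ℝ) - p| = 0 := by
    intro x hx
    refine eta_zero hR hK (hsup.trans ?_)
    rcases hx with hx | hx
    · have : (x : ℝ) + 2 ^ m ≤ p := by exact_mod_cast hx
      rw [abs_sub_comm]; exact le_trans (by linarith) (le_abs_self _)
    · have : (p : ℝ) + 2 ^ m ≤ x := by exact_mod_cast hx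
      exact le_trans (by linarith) (le_abs_self _)
  have h00 : hh R K p (0, 0) = 0 := by
    have := Nat.one_le_two_pow (n := m)
    simp only [hh]
    rw [hz (0 + 1) (Or.inl (by rw [pow_succ] at hpm; omega))]; simp
  refine ⟨(l ^ n)⁻¹ • hh R K p, inL0_fin _ _ ?_, fun v => ?_, ?_⟩
  · refine ((Set.finite_lt_nat (p + 2 ^ m)).image fun x => ((0, x) : ℕ × ℕ)).subset ?_
    rintro ⟨_ | k, x⟩ hv
    · refine ⟨x, ?_, rfl⟩
      by_contra hx
      apply hv
      have hx : p + 2 ^ m ≤ x := not_lt.1 hx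
      simp only [Pi.smul_apply, hh]
      rw [hz (x + 1) (Or.inr (by omega))]; simp
    · exact (hv (by simp [hh])).elim
  · rw [D_smul, Pi.smul_apply, norm_smul, norm_inv, norm_pow, ← hRd]
    rcases v with ⟨_ | _ | k, _ | j⟩
    · simp [D, tr, h00, hε.le]
    · have : D tr (hh R K p) (0, j + 1) = ((eta R K |((j + 1 + 1 : ℕ) : ℝ) - p| -
          eta R K |((j + 1 : ℕ) : ℝ) - p| : ℝ) : ℂ) := by
        simp [D, tr, par, hh]
      rw [this, Complex.norm_real, Real.norm_eq_abs]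
      have a1 := abs_nonneg (((j + 1 + 1 : ℕ) : ℝ) - p)
      have a2 := abs_nonneg (((j + 1 : ℕ) : ℝ) - p)
      have a3 : |(|((j + 1 + 1 : ℕ) : ℝ) - p| - |((j + 1 : ℕ) : ℝ) - p|)| ≤ 1 := by
        refine (abs_abs_sub_abs_le_abs_sub _ _).trans ?_
        push_cast
        rw [show (j : ℝ) + 1 + 1 - p - (j + 1 - p) = 1 by ring, abs_one]
      set a := |((j + 1 + 1 : ℕ) : ℝ) - p|
      set b := |((j + 1 : ℕ) : ℝ) - p|
      rw [abs_le] at a3
      have key : ∀ a b : ℝ, 0 ≤ b → a - b ≤ 1 → 1 + a / R ≤ (1 + 1 / R) * (1 + b / R) := by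
        intro a b hb hab
        have e1 : a / R ≤ (b + 1) / R := by gcongr; linarith
        have e2 : 0 ≤ 1 / R * (b / R) := by positivity
        rw [add_div] at e1
        nlinarith
      have := eta_diff (R := R) (a := a) (b := b) hK (log_diff (c := 1 / R) (by positivity)
        (by positivity) (key a b a2 a3.2) (key b a a1 (by linarith)))
      calc R * |eta R K a - eta R K b| ≤ R * (1 / R / K) := by gcongr
        _ = ε / 2 := by rw [hKd]; field_simp
        _ ≤ ε := by linarith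
    · have : D tr (hh R K p) (0 + 1, 0) = 0 := by
        simp only [D, tr, par, h00]; simp [hh]
      rw [this]; simp [hε.le]
    all_goals simp [D, tr, par, hh, hε.le]
  · have e1 : l ^ n • (((l ^ n)⁻¹ • hh R K p) ∘ ph^[n]) = hh R K p ∘ ph^[n] := by
      funext v
      simp only [Pi.smul_apply, Function.comp, smul_eq_mul]
      rw [← mul_assoc, mul_inv_cancel₀ (pow_ne_zero _ hl0), one_mul]
    rw [e1]
    set u := hh R K p ∘ ph^[n] - dl (k0, j0) with hu
    have hval : ∀ k j, k ≤ n → (hh R K p ∘ ph^[n]) (k, j) = (eta R K |(P n k j : ℝ) - p| : ℝ) := by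
      intro k j hk
      have := P_pos n k j
      simp only [Function.comp, iter, if_pos hk, hh]
      rw [show P n k j - 1 + 1 = P n k j by omega]
    have ua : ∀ k j, k ≤ k0 → u (k, j) = 0 := by
      intro k j hk
      rw [hu, Pi.sub_apply, hval k j (by omega)]
      by_cases hw : (k, j) = (k0, j0)
      · obtain ⟨rfl, rfl⟩ := Prod.mk.inj hw
        simp [dl, eta, ← hp]
      · have hne : P n k j ≠ p := by
          intro h
          apply hw
          apply (ph_bij.1.iterate n)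
          rw [iter, iter, if_pos (by omega), if_pos (by omega), h]
        obtain ⟨s, hs⟩ : 2 ^ (m + 1) ∣ P n k j := hnk0 ▸ P_dvd (n := n) j hk
        rw [hz, dl, if_neg hw]
        · simp
        · rw [hs, ht] at hne ⊢
          have hst : s ≠ t := fun h => hne (by rw [h])
          have := Nat.one_le_two_pow (n := m)
          rcases lt_or_gt_of_ne hst with h | h
          · left
            have := Nat.mul_le_mul_left (2 ^ (m + 1)) (Nat.succ_le_of_lt h)
            rw [Nat.mul_succ, pow_succ] at this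
            rw [pow_succ]; omega
          · right
            have := Nat.mul_le_mul_left (2 ^ (m + 1)) (Nat.succ_le_of_lt h)
            rw [Nat.mul_succ, pow_succ] at this
            rw [pow_succ]; omega
    have ub : ∀ k j, n < k → u (k, j) = 0 := by
      intro k j hk
      have : (k, j) ≠ (k0, j0) := fun h => by have := (Prod.mk.inj h).1; omega
      obtain ⟨i, hi⟩ : ∃ i, k - n = i + 1 := ⟨k - n - 1, by omega⟩
      simp [hu, iter, not_le.2 hk, hi, hh, dl, this]
    have uc : ∀ k j, k0 < k → k ≤ n → u (k, j) =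
        (eta R K |((2 ^ (n - k) * (2 * j + 1) : ℕ) : ℝ) - p| : ℝ) := by
      intro k j h1 h2
      have : (k, j) ≠ (k0, j0) := fun h => by have := (Prod.mk.inj h).1; omega
      rw [hu, Pi.sub_apply, hval k j h2, dl, if_neg this, sub_zero, P, if_neg (by omega)]
    have us : ∀ k, u (k, 0) = 0 := by
      intro k
      by_cases h1 : k ≤ k0
      · exact ua k 0 h1
      by_cases h2 : n < k
      · exact ub k 0 h2
      rw [uc k 0 (by omega) (by omega), hz]
      · simp
      · left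
        have : 2 ^ (n - k) ≤ 2 ^ m := Nat.pow_le_pow_right two_pos (by omega)
        rw [pow_succ] at hpm
        omega
    rintro ⟨k, _ | j⟩
    · rcases k with _ | k
      · simp [D, tr, us, hε.le]
      · simp [D, tr, par, us, hε.le]
    · have hD : D tr u (k, j + 1) = u (k, j + 1) - u (k, j) := by simp [D, tr, par]
      rw [hD]
      by_cases h1 : k ≤ k0
      · simp [ua _ _ h1, hε.le]
      by_cases h2 : n < k
      · simp [ub _ _ h2, hε.le]
      rw [uc k _ (by omega) (by omega), uc k _ (by omega) (by omega), ← Complex.ofReal_sub,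
        Complex.norm_real, Real.norm_eq_abs]
      obtain ⟨s, hs⟩ : 2 ^ (n - k + 1) ∣ p :=
        (pow_dvd_pow 2 (show n - k + 1 ≤ m + 1 by omega)).trans ⟨t, ht⟩
      set q : ℝ := 2 ^ (n - k) with hq
      have hq0 : 0 < q := by positivity
      have f1 : |((2 ^ (n - k) * (2 * (j + 1) + 1) : ℕ) : ℝ) - p| =
          q * |((2 * ((j : ℤ) - s) + 3 : ℤ) : ℝ)| := by
        rw [← abs_of_pos hq0, ← abs_mul, hs, hq]; congr 1; push_cast; ring
      have f2 : |((2 ^ (n - k) * (2 * j + 1) : ℕ) : ℝ) - p| =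
          q * |((2 * ((j : ℤ) - s) + 1 : ℤ) : ℝ)| := by
        rw [← abs_of_pos hq0, ← abs_mul, hs, hq]; congr 1; push_cast; ring
      rw [f1, f2]
      generalize (j : ℤ) - s = z
      have g1 : |((2 * z + 3 : ℤ) : ℝ)| ≤ 3 * |((2 * z + 1 : ℤ) : ℝ)| := by
        have : |2 * z + 3| ≤ 3 * |2 * z + 1| := by
          rcases abs_cases (2 * z + 3) with h | h <;> rcases abs_cases (2 * z + 1) with h' | h' <;>
            omega
        exact_mod_cast this
      have g2 : |((2 * z + 1 : ℤ) : ℝ)| ≤ 3 * |((2 * z + 3 : ℤ) : ℝ)| := by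
        have : |2 * z + 1| ≤ 3 * |2 * z + 3| := by
          rcases abs_cases (2 * z + 3) with h | h <;> rcases abs_cases (2 * z + 1) with h' | h' <;>
            omega
        exact_mod_cast this
      have key : ∀ a b : ℝ, a ≤ 3 * b → 1 + q * a / R ≤ (1 + 2) * (1 + q * b / R) := by
        intro a b hab
        have e1 : q * a / R ≤ q * (3 * b) / R := by gcongr
        have e2 : q * (3 * b) / R = 3 * (q * b / R) := by ring
        linarith
      have := eta_diff (R := R) hK (log_diff (c := 2) (by positivity) (by positivity)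
        (key _ _ g1) (key _ _ g2))
      refine this.trans (le_of_eq ?_)
      rw [hKd]; field_simp

lemma hB {l : ℂ} (h2 : ‖l‖ < 1) (w : ℕ × ℕ) (ε : ℝ) (hε : 0 < ε) : ∀ᶠ n in atTop,
    Bd tr (l ^ n • (dl w ∘ ph^[n])) ε := by
  filter_upwards [(tendsto_pow_atTop_nhds_zero_of_lt_one (norm_nonneg l) h2).eventually
    (ge_mem_nhds (show 0 < ε / 2 by positivity))] with n hn v
  rw [D_smul, Pi.smul_apply, norm_smul, norm_pow]
  have h1 : ∀ x, ‖dl w x‖ ≤ 1 := fun x => by unfold dl; split_ifs <;> simp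
  have : ‖D tr (dl w ∘ ph^[n]) v‖ ≤ 2 := by
    unfold D
    split_ifs
    · exact (h1 _).trans one_le_two
    · exact (norm_sub_le _ _).trans (by
        simp only [Function.comp]; linarith [h1 (ph^[n] v), h1 (ph^[n] (tr.par v))])
  calc _ ≤ ε / 2 * 2 := by gcongr
    _ = ε := by ring

theorem result : ∃ (V : Type) (τ : RTree V) (φ : V → V), Function.Bijective φ ∧
    BoundedComp τ φ ∧ ∀ l : ℂ, 1 / 2 < ‖l‖ → ‖l‖ < 1 → HypercyclicComp τ φ l := by
  refine ⟨_, tr, ph, ph_bij, ?_, fun l h1 h2 =>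
    (main tr ph l ph_bij.1 ph_adj (hA h1) (hB h2)).2⟩
  exact (main tr ph (3 / 4) ph_bij.1 ph_adj (hA (by norm_num)) (hB (by norm_num))).1

end Pool.Agent.Results.MP_2744a5_an.Bijective
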